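import Pool.Agent.H834.K4.Quo

/-!
# Two families of K3 surfaces
-/

set_option autoImplicit false
set_option linter.unusedSectionVars false
set_option linter.unusedVariables false

namespace Pool.Agent.H834.K4

open FF Polynomial Module Pool.Agent.Q70.CH Pool.Agent.Q70.KM Pool.Agent.H834.E
  Pool.Agent.H834.KJ Pool.Agent.H834.ED

section

variable {k : Type} [Field k]

lemma powC_natDegree (c₀ c : k) (m : ℕ) : ((X - C c₀) ^ m - C c : k[X]).natDegree = m := by
  rw [natDegree_sub_C, natDegree_pow, natDegree_X_sub_C, mul_one]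

lemma powC_monic (c₀ c : k) {m : ℕ} (hm : 0 < m) : ((X - C c₀) ^ m - C c : k[X]).Monic := by
  refine ((monic_X_sub_C c₀).pow m).sub_of_left ?_
  rw [degree_pow, degree_X_sub_C, nsmul_one]
  refine lt_of_le_of_lt degree_C_le ?_
  exact_mod_cast hm

lemma fD_monic (l c₀ c d : k) {m : ℕ} (hm : 0 < m) : (fD l c₀ c d m).Monic :=
  (lg_monic l).mul ((powC_monic c₀ c hm).mul (powC_monic c₀ d hm))

lemma fD_natDegree (l c₀ c d : k) {m : ℕ} (hm : 0 < m) : (fD l c₀ c d m).natDegree = 3 + 2 * m := by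
  unfold fD
  rw [(lg_monic l).natDegree_mul ((powC_monic c₀ c hm).mul (powC_monic c₀ d hm)), lg_natDegree,
    (powC_monic c₀ c hm).natDegree_mul (powC_monic c₀ d hm), powC_natDegree, powC_natDegree]
  ring

lemma fD_ne {l c₀ c d : k} {m : ℕ} (hm : 0 < m) (h : (fD l c₀ c d m).Separable) : c ≠ d := by
  rintro rfl
  have h1 : IsUnit ((X - C c₀) ^ m - C c : k[X]) := h.squarefree _ ⟨lg l, by unfold fD; ring⟩
  have h2 := natDegree_eq_zero_of_isUnit h1
  rw [powC_natDegree] at h2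
  omega

lemma sep_comp {p : k[X]} (hp : p.Separable) {u : k} (hu : u ≠ 0) (v : k) :
    (p.comp (C u * X + C v)).Separable := by
  obtain ⟨a, b, h⟩ := hp
  have h1 : derivative (p.comp (C u * X + C v)) = C u * (derivative p).comp (C u * X + C v) := by
    rw [derivative_comp]
    simp
  refine ⟨a.comp (C u * X + C v), C u⁻¹ * b.comp (C u * X + C v), ?_⟩
  rw [h1]
  have h2 := congrArg (fun q : k[X] => q.comp (C u * X + C v)) h
  simp only [add_comp, mul_comp, one_comp] at h2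
  have h3 : (C u⁻¹ * C u : k[X]) = 1 := by rw [← C_mul, inv_mul_cancel₀ hu, C_1]
  rw [← h2]
  calc _ = a.comp (C u * X + C v) * p.comp (C u * X + C v) +
        (C u⁻¹ * C u) * (b.comp (C u * X + C v) * (derivative p).comp (C u * X + C v)) := by ring
    _ = _ := by rw [h3, one_mul]

end

section

variable {k : Type} [Field k] [CharZero k] [IsAlgClosed k]
  {K : Type} [Field K] [Algebra k K] [IsFF k K] {L : Type} [Field L] [Algebra k L] [IsFF k L]

/-- The general form. -/
theorem main_gen [Algebra.IsAlgebraic ℚ k] {l c₀ c d ζ ε : k} {m : ℕ} (hm : 2 ≤ m)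
    (hζ : IsPrimitiveRoot ζ m) (hε : ε ^ m = -1) (l0 : l ≠ 0) (l1 : l ≠ 1)
    (hsep : (fD l c₀ c d m).Separable) {x y : K} (hK : Dbl k (lg l) x y) {x' y' : L}
    (hL : Dbl k (fD l c₀ c d m) x' y') {ρ : K ≃ₐ[k] K} {ρ' : L ≃ₐ[k] L}
    (hx : ρ x = algebraMap k K ζ * (x - algebraMap k K c₀) + algebraMap k K c₀)
    (hy : ρ y = algebraMap k K ε * y)
    (hx' : ρ' x' = algebraMap k L ζ * (x' - algebraMap k L c₀) + algebraMap k L c₀)
    (hy' : ρ' y' = algebraMap k L ε * y') (α : PicQ k K) :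
    ¬ FiniteDimensional ℚ (annN (relG ρ ρ') α) := by
  have hm0 : 0 < m := by omega
  obtain ⟨σ, O, E⟩ := exists_ell l0 l1 hK
  obtain ⟨σ', W, E'⟩ := hy_of_dbl hL hsep ⟨1 + m, by rw [fD_natDegree _ _ _ _ hm0]; ring⟩
  exact main_ne hm0 (fD_ne hm0 hsep) (fD_monic _ _ _ _ hm0)
    (by rw [fD_natDegree _ _ _ _ hm0]; omega) E E' (nice E E' hm0 hζ hε hx hy hx' hy') α

/-- **The family with the elliptic curve `y² = x³ - x`.** -/
theorem main_four [Algebra.IsAlgebraic ℚ k] {c d i : k} (hi : i ^ 2 = -1)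
    (hsep : ((X ^ 3 - X) * (X ^ 2 - C c) * (X ^ 2 - C d) : k[X]).Separable)
    {x y : K} (hK : Dbl k (X ^ 3 - X) x y) {x' y' : L}
    (hL : Dbl k ((X ^ 3 - X) * (X ^ 2 - C c) * (X ^ 2 - C d)) x' y')
    {ρ : K ≃ₐ[k] K} {ρ' : L ≃ₐ[k] L} (hx : ρ x = -x) (hy : ρ y = algebraMap k K i * y)
    (hx' : ρ' x' = -x') (hy' : ρ' y' = algebraMap k L i * y') (α : PicQ k K) :
    ¬ FiniteDimensional ℚ (annN (relG ρ ρ') α) := by
  have e1 : (X ^ 3 - X : k[X]) = lg (-1) := by
    unfold lg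
    rw [C_1, C_neg, C_1]
    ring
  have e2 : ((X ^ 3 - X) * (X ^ 2 - C c) * (X ^ 2 - C d) : k[X]) = fD (-1) 0 c d 2 := by
    unfold fD
    rw [e1, C_0, sub_zero]
    ring
  rw [e1] at hK
  rw [e2] at hsep hL
  refine main_gen (ζ := -1) (ε := i) le_rfl (IsPrimitiveRoot.neg_one 0 (by norm_num)) hi
    (by norm_num) (by norm_num) hsep hK hL ?_ hy ?_ hy' α
  · rw [hx, map_neg, map_one, map_zero]
    ring
  · rw [hx', map_neg, map_one, map_zero]
    ring

/-- **The family with the elliptic curve `y² = x³ + 1`.** -/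
theorem main_six [Algebra.IsAlgebraic ℚ k] {c d ω : k} (hω : ω ^ 2 + ω + 1 = 0)
    (hsep : ((X ^ 3 + 1) * (X ^ 3 - C c) * (X ^ 3 - C d) : k[X]).Separable)
    {x y : K} (hK : Dbl k (X ^ 3 + 1) x y) {x' y' : L}
    (hL : Dbl k ((X ^ 3 + 1) * (X ^ 3 - C c) * (X ^ 3 - C d)) x' y')
    {ρ : K ≃ₐ[k] K} {ρ' : L ≃ₐ[k] L} (hx : ρ x = algebraMap k K ω * x) (hy : ρ y = -y)
    (hx' : ρ' x' = algebraMap k L ω * x') (hy' : ρ' y' = -y') (α : PicQ k K) :
    ¬ FiniteDimensional ℚ (annN (relG ρ ρ') α) := by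
  have hω3 : ω ^ 3 = 1 := by linear_combination (ω - 1) * hω
  have hω1 : ω ≠ 1 := by
    rintro rfl
    norm_num at hω
  have hω0 : ω ≠ 0 := by
    rintro rfl
    norm_num at hω
  have hprim : IsPrimitiveRoot ω 3 := by
    refine IsPrimitiveRoot.mk_of_lt ω (by norm_num) hω3 ?_
    intro j hj0 hj3 hj
    interval_cases j
    · rw [pow_one] at hj
      exact hω1 hj
    · apply hω1
      have h1 : ω ^ 3 = ω := by rw [pow_succ, hj, one_mul]
      rw [← h1, hω3]
  have h1ω : 1 - ω ≠ 0 := sub_ne_zero.2 (Ne.symm hω1)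
  set u : k := (1 - ω)⁻¹ with hu
  have hu0 : u ≠ 0 := inv_ne_zero h1ω
  have huω : u * (1 - ω) = 1 := inv_mul_cancel₀ h1ω
  obtain ⟨κ, hκ⟩ : ∃ κ : k, κ ^ 2 = u ^ 3 := IsAlgClosed.exists_pow_nat_eq _ (n := 2) (by norm_num)
  have hκ0 : κ ≠ 0 := by
    rintro rfl
    rw [zero_pow two_ne_zero] at hκ
    exact pow_ne_zero 3 hu0 hκ.symm
  -- the identities of polynomials
  have g1 : ∀ {R : Type} [CommRing R] (f : k →+* R) (z : R),
      f u ^ 3 * (z ^ 3 + 1) = (f u * z + f u) * (f u * z + f u - 1) * (f u * z + f u - f (1 + ω)) := by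
    intro R _ f z
    have h1 : f u * (1 - f ω) = 1 := by rw [← map_one f, ← map_sub, ← map_mul, huω]
    have h2 : f ω ^ 2 + f ω + 1 = 0 := by
      rw [← map_pow, ← map_one f, ← map_add, ← map_add, hω, map_zero]
    rw [map_add, map_one]
    generalize f u = v at *
    generalize f ω = w at *
    have h3 : v * z + v - 1 = v * (z + w) := by linear_combination h1
    have h4 : v * z + v - (1 + w) = v * (z + w ^ 2) := by
      linear_combination (1 + w) * h1
    rw [h3, h4]
    linear_combination (v ^ 3 * (z + 1) * (1 - w - z)) * h2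
  set l : k := 1 + ω with hl
  have l0 : l ≠ 0 := by
    intro h
    apply pow_ne_zero 2 hω0
    linear_combination hω - h
  have l1 : l ≠ 1 := by
    intro h
    apply hω0
    linear_combination h
  -- the separability
  have hpoly : fD l u (u ^ 3 * c) (u ^ 3 * d) 3 = C (u ^ 9) *
      ((X ^ 3 + 1) * (X ^ 3 - C c) * (X ^ 3 - C d) : k[X]).comp (C u⁻¹ * X + C (-1)) := by
    have h1 : (C u * C u⁻¹ : k[X]) = 1 := by rw [← C_mul, mul_inv_cancel₀ hu0, C_1]
    set q : k[X] := C u⁻¹ * X + C (-1) with hq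
    have h2 : C u * q + C u = X := by
      rw [hq, C_neg, C_1]
      linear_combination X * h1
    have h3 := g1 C q
    rw [h2] at h3
    have h4 : lg l = C u ^ 3 * (q ^ 3 + 1) := by
      rw [h3]
      unfold lg
      rw [C_1]
    have h5 : (X - C u : k[X]) = C u * q := by rw [← h2]; ring
    unfold fD
    rw [h4, h5]
    simp only [mul_comp, add_comp, sub_comp, pow_comp, X_comp, C_comp, one_comp, map_mul, map_pow]
    ring
  have hsep' : (fD l u (u ^ 3 * c) (u ^ 3 * d) 3).Separable := by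
    rw [hpoly]
    exact Separable.unit_mul (isUnit_C.2 (pow_ne_zero 9 hu0).isUnit)
      (sep_comp hsep (inv_ne_zero hu0) _)
  -- the curves
  have hKx : ∀ {M : Type} [Field M] [Algebra k M] (z : M),
      algebraMap k M u * z + algebraMap k M u - algebraMap k M u = algebraMap k M u * z := by
    intro M _ _ z
    ring
  have hK' : Dbl k (lg l) (algebraMap k K u * x + algebraMap k K u) (algebraMap k K κ * y) := by
    refine ⟨tr_change hK.tr u hu0, ?_, gen_change hK.gen hu0 hκ0⟩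
    have h1 := hK.eq
    simp only [map_add, map_pow, aeval_X, map_one] at h1
    rw [mul_pow, ← map_pow, hκ, map_pow, h1, g1 (algebraMap k K) x]
    unfold lg
    simp only [map_mul, map_sub, aeval_X, aeval_C, map_one]
  have hL' : Dbl k (fD l u (u ^ 3 * c) (u ^ 3 * d) 3) (algebraMap k L u * x' + algebraMap k L u)
      (algebraMap k L (κ ^ 3) * y') := by
    refine ⟨tr_change hL.tr u hu0, ?_, gen_change hL.gen hu0 (pow_ne_zero 3 hκ0)⟩
    have h1 := hL.eq
    simp only [map_add, map_mul, map_sub, map_pow, aeval_X, map_one, aeval_C] at h1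
    have h2 : (algebraMap k L κ) ^ 2 = (algebraMap k L u) ^ 3 := by
      rw [← map_pow, hκ, map_pow]
    have h3 := g1 (algebraMap k L) x'
    unfold fD lg
    simp only [map_mul, map_sub, map_pow, aeval_X, aeval_C, map_one]
    rw [hKx]
    rw [← h3]
    calc (algebraMap k L κ ^ 3 * y') ^ 2 = (algebraMap k L κ ^ 2) ^ 3 * y' ^ 2 := by ring
      _ = _ := by rw [h2, h1]; ring
  refine main_gen (ζ := ω) (ε := -1) (by norm_num) hprim (by norm_num) l0 l1 hsep' hK' hL'
    ?_ ?_ ?_ ?_ α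
  · rw [hKx, map_add, map_mul, AlgEquiv.commutes, hx]
    ring
  · rw [map_mul, AlgEquiv.commutes, hy, map_neg, map_one]
    ring
  · rw [hKx, map_add, map_mul, AlgEquiv.commutes, hx']
    ring
  · rw [map_mul, AlgEquiv.commutes, hy', map_neg, map_one]
    ring

end

end Pool.Agent.H834.K4
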