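import Pool.Agent.H834.K4.Tors
import Pool.Agent.H422.HE.Hyper

/-!
# The points of a hyperelliptic curve over infinitely many rational points of the line
-/

set_option autoImplicit false
set_option linter.unusedSectionVars false
set_option linter.unusedVariables false

namespace Pool.Agent.H834.K4

open FF Polynomial Module Pool.Agent.Q70.CH Pool.Agent.Q70.KM Pool.Agent.H834.E
  Pool.Agent.H834.KJ Pool.Agent.H834.ED

section

variable (F : Type) [Field F] [NumberField F]

/-- The points of the twisted curves. -/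
lemma fin1 {S : Finset F} (hS : 5 ≤ S.card) {κ : F} (hκ : κ ≠ 0) :
    {a : F | ∃ z : F, z ^ 2 = κ * ∏ e ∈ S, (a - e)}.Finite := by
  have hsep : (C κ * ∏ e ∈ S, (X - C e) : F[X]).Separable := by
    refine Separable.mul ((separable_C _).2 hκ.isUnit) ?_ ?_
    · exact separable_prod_X_sub_C_iff'.2 fun _ _ _ _ h => h
    · exact ⟨C κ⁻¹, 0, by rw [zero_mul, add_zero, ← map_mul, inv_mul_cancel₀ hκ, map_one]⟩
  have hdeg : 5 ≤ (C κ * ∏ e ∈ S, (X - C e) : F[X]).natDegree := by
    rw [natDegree_C_mul hκ, natDegree_prod_of_monic _ _ fun e _ => monic_X_sub_C e]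
    simpa using hS
  have h1 := Pool.Agent.H422.HE.hyper F hsep hdeg
  refine h1.subset ?_
  rintro a ⟨z, hz⟩
  refine ⟨z, ?_⟩
  rw [hz, eval_mul, eval_C, eval_prod]
  simp

/-- The exceptional values. -/
theorem fin2 {S : Finset F} (hS : 6 ≤ S.card) :
    {a : F | ∃ M : ℕ, 0 < M ∧ ∃ e ∈ S, ∃ S₁ ⊆ S, e ∉ S₁ ∧ ∃ w : F, w ≠ 0 ∧
      -(e - a) ^ M = (∏ e ∈ S, (a - e)) * (∏ e' ∈ S₁, (e - e')) * w ^ 2}.Finite := by
  classical
  let N : Finset (F × Finset F) := (S ×ˢ S.powerset).filter (fun p => p.1 ∉ p.2)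
  let κ : F × Finset F → F := fun p => ∏ e' ∈ p.2, (p.1 - e')
  have hκ : ∀ p ∈ N, κ p ≠ 0 := by
    intro p hp
    refine Finset.prod_ne_zero_iff.2 fun e' he' => ?_
    intro h0
    exact (Finset.mem_filter.1 hp).2 (by rw [sub_eq_zero.1 h0]; exact he')
  have hfin : ((S : Set F) ∪ ⋃ p ∈ N, ({a : F | ∃ z : F, z ^ 2 = -κ p * ∏ e ∈ S, (a - e)} ∪
      {a : F | ∃ z : F, z ^ 2 = κ p * ∏ e ∈ S.erase p.1, (a - e)})).Finite := by
    refine (Finset.finite_toSet S).union ((Finset.finite_toSet N).biUnion fun p hp => ?_)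
    refine (fin1 F (by omega) (neg_ne_zero.2 (hκ p hp))).union (fin1 F ?_ (hκ p hp))
    have h1 := (Finset.mem_product.1 (Finset.mem_filter.1 hp).1).1
    rw [Finset.card_erase_of_mem h1]
    omega
  refine hfin.subset ?_
  rintro a ⟨M, hM, e, he, S₁, hS₁, heS, r, hr0, hr⟩
  by_cases haS : a ∈ S
  · exact Or.inl haS
  right
  rw [Set.mem_iUnion₂]
  have hp : (e, S₁) ∈ N := by
    refine Finset.mem_filter.2 ⟨Finset.mem_product.2 ⟨he, Finset.mem_powerset.2 hS₁⟩, heS⟩
  refine ⟨(e, S₁), hp, ?_⟩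
  have hea : e - a ≠ 0 := by
    intro h0
    exact haS (by rw [← sub_eq_zero.1 h0]; exact he)
  change -(e - a) ^ M = (∏ e ∈ S, (a - e)) * κ (e, S₁) * r ^ 2 at hr
  change (∃ z : F, z ^ 2 = -κ (e, S₁) * ∏ e ∈ S, (a - e)) ∨
    (∃ z : F, z ^ 2 = κ (e, S₁) * ∏ e' ∈ S.erase e, (a - e'))
  set c := κ (e, S₁) with hc
  rcases Nat.even_or_odd' M with ⟨m, hm | hm⟩
  · left
    refine ⟨(e - a) ^ m / r, ?_⟩
    have h1 : (e - a) ^ M = ((e - a) ^ m) ^ 2 := by rw [hm, ← pow_mul, mul_comm]
    rw [h1] at hr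
    rw [div_pow, div_eq_iff (pow_ne_zero 2 hr0)]
    linear_combination -hr
  · right
    have h1 : (e - a) ^ M = ((e - a) ^ m) ^ 2 * (e - a) := by
      rw [hm, pow_succ, ← pow_mul, mul_comm m 2]
    rw [h1, ← Finset.mul_prod_erase S (fun e' => a - e') he] at hr
    refine ⟨(e - a) ^ m / r, ?_⟩
    rw [div_pow, div_eq_iff (pow_ne_zero 2 hr0)]
    apply mul_left_cancel₀ hea
    linear_combination -hr

end

section

variable {k : Type} [Field k] [CharZero k] [IsAlgClosed k]
  {L : Type} [Field L] [Algebra k L] [IsFF k L]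

/-- The classes of the points over infinitely many values in a number field. -/
theorem span_infinite [Algebra.IsAlgebraic ℚ k] {f : k[X]} {x' y' : L} {σ' : L ≃ₐ[k] L}
    {W : Place k L} (E' : Hy f x' y' σ' W) (hfm : f.Monic) (hdeg : 6 ≤ f.natDegree)
    (F₀ : IntermediateField ℚ k) [FiniteDimensional ℚ F₀] {A : ℕ → k}
    (hAF : ∀ i, A i ∈ F₀) (hAinj : Function.Injective A) {Q : ℕ → Place k L}
    (hQA : ∀ i, At (Q i) x' (A i)) {V : Submodule ℚ (PicQ k L)} (hV : ∀ i, dif W (Q i) ∈ V) :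
    ¬ FiniteDimensional ℚ V := by
  classical
  intro hfin
  have hQ : ∀ i, ∃ c : k, At (Q i) y' c ∧ c ^ 2 = f.eval (A i) := fun i => E'.h.y_at (hQA i)
  choose C' hQC hC using hQ
  -- the roots
  set Sk : Finset k := f.roots.toFinset with hSk
  have hfSk : f = ∏ e ∈ Sk, (X - C e) := by
    have h1 := (IsAlgClosed.splits f).eq_prod_roots_of_monic hfm
    have h2 : f.roots.Nodup := nodup_roots E'.sep
    conv_lhs => rw [h1]
    rw [hSk]
    conv_lhs => rw [← Multiset.dedup_eq_self.2 h2]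
    rfl
  -- a finite generating subset
  set q : ℕ → PicQ k L := fun i => dif W (Q i) with hq
  have hle : Submodule.span ℚ (Set.range q) ≤ V := by
    rw [Submodule.span_le]
    rintro _ ⟨i, rfl⟩
    exact hV i
  have hfg : (Submodule.span ℚ (Set.range q)).FG := by
    have := Submodule.finiteDimensional_of_le hle
    exact (Submodule.fg_iff_finiteDimensional _).2 this
  obtain ⟨s, hs1, hs2⟩ := (Submodule.fg_span_iff_fg_span_finset_subset _).1 hfg
  choose! idx hidx using fun z (hz : z ∈ (s : Set (PicQ k L))) => hs1 hz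
  -- the field of definition
  let G : Finset k := Sk ∪ (s.image fun z => C' (idx z))
  let F₁ : IntermediateField ℚ k := IntermediateField.adjoin ℚ (G : Set k)
  have hF₁ : FiniteDimensional ℚ F₁ := by
    have : Finite (G : Set k) := (Finset.finite_toSet G).to_subtype
    exact IntermediateField.finiteDimensional_adjoin
      (fun z _ => (Algebra.IsAlgebraic.isAlgebraic z).isIntegral)
  let F : IntermediateField ℚ k := F₀ ⊔ F₁
  have hFfin : FiniteDimensional ℚ F := IntermediateField.finiteDimensional_sup F₀ F₁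
  have hNF : NumberField F := ⟨⟩
  have hF₀F : F₀ ≤ F := le_sup_left
  have hGF : ∀ z ∈ G, z ∈ F := fun z hz =>
    (le_sup_right : F₁ ≤ F) (IntermediateField.subset_adjoin _ _ hz)
  have hCF : ∀ z ∈ s, C' (idx z) ∈ F := fun z hz =>
    hGF _ (Finset.mem_union_right _ (Finset.mem_image_of_mem _ hz))
  let S : Finset F := Sk.attach.image (fun e => (⟨e.1, hGF _ (Finset.mem_union_left _ e.2)⟩ : F))
  have hSinj : Function.Injective
      (fun e : {e // e ∈ Sk} => (⟨e.1, hGF _ (Finset.mem_union_left _ e.2)⟩ : F)) := by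
    intro e e' h
    exact Subtype.ext (congrArg (fun z : F => (z : k)) h)
  have hfS : f = ∏ e ∈ S, (X - C (e : k)) := by
    rw [Finset.prod_image (fun a _ b _ h => hSinj h), hfSk]
    exact (Finset.prod_attach Sk (fun e => (X - C e : k[X]))).symm
  have hcard : 6 ≤ S.card := by
    rw [Finset.card_image_of_injective _ hSinj, Finset.card_attach]
    have h1 := congrArg natDegree hfSk
    rw [natDegree_prod_of_monic _ _ fun e _ => monic_X_sub_C e] at h1
    simp only [natDegree_X_sub_C, Finset.sum_const, smul_eq_mul, mul_one] at h1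
    omega
  have hFc : ∀ i, f.coeff i ∈ F := by
    have h1 : (∏ e ∈ S, (X - C e) : F[X]).map (algebraMap F k) = f := by
      rw [hfS, Polynomial.map_prod]
      refine Finset.prod_congr rfl fun e _ => ?_
      rw [Polynomial.map_sub, map_X, map_C]
      rfl
    intro i
    rw [← h1, coeff_map]
    exact ((∏ e ∈ S, (X - C e) : F[X]).coeff i).2
  -- the Galois action
  have hgal : ∀ (τ : k ≃ₐ[F] k) (j : ℕ), τ (C' j) ≠ C' j → dif W (Q j) = 0 := by
    intro τ j hτj
    have hfix : ∀ c ∈ F, τ c = c := fun c hc => τ.commutes ⟨c, hc⟩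
    obtain ⟨T, tQ, -, hTW, hTx, hTy, htQ, -, -⟩ := E'.exists_act F hFc τ.symm
    rw [AlgEquiv.symm_symm] at hTx hTy
    have hTxA : ∀ i, At (T (Q i)) x' (A i) := by
      intro i
      have := hTx _ _ (hQA i)
      rwa [hfix _ (hF₀F (hAF i))] at this
    have hfixq : ∀ z ∈ (s : Set (PicQ k L)), tQ z =
        (LinearMap.id : PicQ k L →ₗ[ℚ] PicQ k L) z := by
      intro z hz
      rw [← hidx z hz]
      change tQ (dif W (Q (idx z))) = dif W (Q (idx z))
      rw [htQ]
      congr 1
      refine E'.ext (hTxA _) ?_ (hQA _) (hQC _)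
      have := hTy _ _ (hQC (idx z))
      rwa [hfix _ (hCF z hz)] at this
    have hall : ∀ i, tQ (q i) = q i := by
      intro i
      have h4 : q i ∈ Submodule.span ℚ (s : Set (PicQ k L)) := by
        rw [← hs2]
        exact Submodule.subset_span ⟨i, rfl⟩
      exact LinearMap.eqOn_span (f := tQ)
        (g := (LinearMap.id : PicQ k L →ₗ[ℚ] PicQ k L)) hfixq h4
    have h4 : τ (C' j) = - C' j := by
      have h5 : τ (C' j) ^ 2 = C' j ^ 2 := by
        rw [← map_pow, hC j]
        refine hfix _ ?_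
        rw [eval_eq_sum_range]
        exact sum_mem fun i _ => mul_mem (hFc i) (pow_mem (hF₀F (hAF j)) i)
      exact (sq_eq_sq_iff_eq_or_eq_neg.1 h5).resolve_left hτj
    have h5 : T (Q j) = (Q j).comp σ' := by
      refine E'.ext (hTxA j) ?_ (E'.comp_x (hQA j)) (E'.comp_y (hQC j))
      have := hTy _ _ (hQC j)
      rwa [h4] at this
    have h6 := hall j
    change tQ (dif W (Q j)) = dif W (Q j) at h6
    rw [htQ, h5, E'.dif_neg] at h6
    have h7 : (2 : ℚ) • dif W (Q j) = 0 := by
      rw [two_smul]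
      nth_rewrite 1 [← h6]
      exact neg_add_cancel _
    exact (smul_eq_zero.1 h7).resolve_left two_ne_zero
  -- the two finite sets
  have hfin1 := fin1 F (S := S) (by omega) (one_ne_zero (α := F))
  have hfin3 := fin2 F (S := S) hcard
  let A' : ℕ → F := fun i => ⟨A i, hF₀F (hAF i)⟩
  have hA'inj : Function.Injective A' := by
    intro i j hij
    exact hAinj (congrArg Subtype.val hij)
  refine Set.infinite_range_of_injective hA'inj ((hfin1.union hfin3).subset ?_)
  rintro _ ⟨i, rfl⟩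
  by_cases hCi : C' i ∈ F
  · left
    refine ⟨⟨C' i, hCi⟩, Subtype.ext ?_⟩
    change C' i ^ 2 = _
    rw [hC i, hfS, eval_prod, one_mul]
    have : ((∏ e ∈ S, (A' i - e) : F) : k) = ∏ e ∈ S, (A i - (e : k)) := by
      change algebraMap F k _ = _
      rw [map_prod]
      rfl
    rw [this]
    refine Finset.prod_congr rfl fun e _ => ?_
    rw [eval_sub, eval_X, eval_C]
  · right
    obtain ⟨τ, hτ⟩ : ∃ τ : k ≃ₐ[F] k, τ (C' i) ≠ C' i := by
      by_contra hcon
      push Not at hcon
      obtain ⟨c, hc⟩ := SF.mem_range_of_fixed hcon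
      apply hCi
      rw [← hc]
      exact c.2
    have htor : IsOfFinAddOrder (dz W (Q i)) :=
      torsion_of_toQ (by rw [toQ_dz, hgal τ i hτ])
    exact E'.tors F hfS (a := A' i) (hQA i) (hQC i) hCi htor

end

end Pool.Agent.H834.K4
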