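import Pool.Agent.H834.ED.Crv5
import Pool.Agent.H834.E.Act

/-!
# The hyperelliptic curve `y² = f(x)` for a separable polynomial of odd degree
-/

set_option autoImplicit false
set_option linter.unusedSectionVars false
set_option linter.unusedVariables false

namespace Pool.Agent.H834.K4

open FF Polynomial Module Pool.Agent.Q70.CH Pool.Agent.Q70.KM Pool.Agent.H834.E
  Pool.Agent.H834.KJ Pool.Agent.H834.ED

section

variable {k : Type} [Field k] [CharZero k] [IsAlgClosed k] {K : Type} [Field K] [Algebra k K]
  [IsFF k K]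

/-- The curve `y² = f(x)`, `f` separable of odd degree, with its involution and the point `W` over
`x = ∞`. -/
structure PreH (f : k[X]) (x y : K) (σ : K ≃ₐ[k] K) (W : Place k K) : Prop where
  h : Dbl k f x y
  sep : f.Separable
  odd : Odd f.natDegree
  sx : σ x = x
  sy : σ y = -y
  ox : W.ord x = -2
  oy : W.ord y = -f.natDegree
  reg : Aff W x

theorem exists_preH {f : k[X]} {x y : K} (h : Dbl k f x y) (sep : f.Separable)
    (odd : Odd f.natDegree) : ∃ (σ : K ≃ₐ[k] K) (W : Place k K), PreH f x y σ W := by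
  classical
  obtain ⟨n, hn⟩ := odd
  have hf0 : f ≠ 0 := by
    rintro rfl
    rw [natDegree_zero] at hn
    omega
  have hpole : ∀ P : Place k K, P.ord x < 0 → 2 * P.ord y = (2 * n + 1) * P.ord x := by
    intro P hP
    have h1 := congrArg P.ord h.eq
    rw [P.ord_pow, ord_aeval_pole hP h.tr hf0, hn] at h1
    push_cast at h1
    exact h1
  obtain ⟨σ, h1, h2⟩ := h.exists_inv sep (by omega)
  obtain ⟨S, h3, ⟨O, hO⟩, h4⟩ := h.poles
  have h5 : ∀ w : Place k K, w.ord x < 0 → w.ord x ≤ -2 := by
    intro w hw
    have h6 := hpole w hw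
    obtain ⟨m, hm⟩ : ∃ m : ℤ, w.ord x = 2 * m := ⟨w.ord y - n * w.ord x, by linarith⟩
    omega
  have hO' := (h3 O).1 hO
  have h6 : ∀ P : Place k K, P.ord x < 0 → P = O := by
    intro P hP
    by_contra hne
    have h7 : ∑ w ∈ {P, O}, (- w.ord x).toNat ≤ 2 := (Finset.sum_le_sum_of_subset (by
      intro w hw
      simp only [Finset.mem_insert, Finset.mem_singleton] at hw
      rcases hw with rfl | rfl
      · exact (h3 _).2 hP
      · exact hO)).trans h4
    rw [Finset.sum_pair hne] at h7
    have := h5 P hP
    have := h5 O hO'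
    omega
  have h7 : O.ord x = -2 := by
    have h8 : ∑ w ∈ {O}, (- w.ord x).toNat ≤ 2 := (Finset.sum_le_sum_of_subset
      (Finset.singleton_subset_iff.2 hO)).trans h4
    rw [Finset.sum_singleton] at h8
    have := h5 O hO'
    omega
  refine ⟨σ, O, h, sep, ⟨n, hn⟩, h1, h2, h7, ?_, ?_⟩
  · have h8 := hpole O hO'
    rw [h7] at h8
    rw [hn]
    push_cast
    linarith
  · intro P hP
    by_contra hc
    apply hP
    apply h6
    unfold Place.Reg at hc
    push Not at hc
    exact hc.2

namespace PreH

variable {f : k[X]} {x y : K} {σ : K ≃ₐ[k] K} {W : Place k K}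

lemma deg (E : PreH f x y σ W) : 0 < f.natDegree := E.odd.pos

lemma x_ne (E : PreH f x y σ W) : x ≠ 0 := ne_zero_of_ord (P := W) (by rw [E.ox]; norm_num)

lemma y_ne (E : PreH f x y σ W) : y ≠ 0 := ne_zero_of_ord (P := W) (by
  rw [E.oy]
  have := E.deg
  omega)

lemma ne_W (E : PreH f x y σ W) {P : Place k K} {a : k} (h : At P x a) : P ≠ W := by
  rintro rfl
  have := (P.reg_iff E.x_ne).1 h.1
  rw [E.ox] at this
  omega

lemma comp_x (E : PreH f x y σ W) {P : Place k K} {a : k} (ha : At P x a) :
    At (P.comp σ) x a := by rw [at_comp, E.sx]; exact ha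

lemma comp_y (E : PreH f x y σ W) {P : Place k K} {b : k} (hb : At P y b) :
    At (P.comp σ) y (-b) := by rw [at_comp, E.sy]; exact hb.neg

lemma aeval_ne (E : PreH f x y σ W) {p : k[X]} (hp : p ≠ 0) : aeval x p ≠ 0 :=
  fun h0 => E.h.tr ⟨p, hp, h0⟩

lemma ord_x (E : PreH f x y σ W) {Q : Place k K} {a b : k} (ha : At Q x a) (hb : At Q y b) :
    (b = 0 → Q.ord (x - algebraMap k K a) = 2) ∧ (b ≠ 0 → Q.ord (x - algebraMap k K a) = 1) :=
  (E.h.over E.sep E.sx E.sy ha hb Q ha).2

lemma ord_y (E : PreH f x y σ W) {P : Place k K} {a : k} (ha : At P x a) (hb : At P y 0) :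
    P.ord y = 1 := by
  have h1 := E.h.ord_even E.sep ha (by
    obtain ⟨b', h1, h2⟩ := E.h.y_at ha
    rw [← h2, ← hb.unique h1]; ring)
  have h2 := (E.ord_x ha hb).1 rfl
  omega

/-- The functions with poles only at `W` are the polynomials in `x` and `y`. -/
theorem integral (E : PreH f x y σ W) {u : K} (hu : Aff W u) :
    ∃ A B : k[X], u = aeval x A + aeval x B * y := by
  classical
  have key : ∀ n : ℕ, ∀ A B D : k[X], D ≠ 0 → D.natDegree = n →
      u * aeval x D = aeval x A + aeval x B * y → ∃ A B : k[X], u = aeval x A + aeval x B * y := by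
    intro n
    induction n with
    | zero =>
      intro A B D hD hn h
      obtain ⟨c, rfl⟩ := natDegree_eq_zero.1 hn
      have hc : c ≠ 0 := by
        rintro rfl
        exact hD C_0
      refine ⟨C c⁻¹ * A, C c⁻¹ * B, ?_⟩
      rw [map_mul, map_mul, aeval_C]
      rw [aeval_C] at h
      have h1 : algebraMap k K c⁻¹ * algebraMap k K c = 1 := by
        rw [← map_mul, inv_mul_cancel₀ hc, map_one]
      calc u = (algebraMap k K c⁻¹ * algebraMap k K c) * u := by rw [h1, one_mul]
        _ = algebraMap k K c⁻¹ * (u * algebraMap k K c) := by ring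
        _ = _ := by rw [h]; ring
    | succ n ih =>
      intro A B D hD hn h
      obtain ⟨a, ha⟩ : ∃ a, D.IsRoot a := by
        apply IsAlgClosed.exists_root
        intro h0
        have := natDegree_eq_zero_iff_degree_le_zero.2 h0.le
        omega
      obtain ⟨D', hD'⟩ := dvd_iff_isRoot.2 ha
      obtain ⟨b, hb⟩ : ∃ b : k, b ^ 2 = f.eval a :=
        IsAlgClosed.exists_pow_nat_eq _ (n := 2) (by norm_num)
      obtain ⟨P, hPx, hPy⟩ := E.h.exists_at E.sep E.deg hb
      have hPO := E.ne_W hPx
      -- the value of `A + B y`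
      have hval : ∀ Q : Place k K, At Q x a → Q.Reg u →
          At Q (aeval x A + aeval x B * y) 0 := by
        intro Q hQ hr
        obtain ⟨c, hc⟩ := exists_at hr
        have h1 := hc.mul (hQ.aeval D)
        rw [h, ha.eq_zero, mul_zero] at h1
        exact h1
      have h1 : A.eval a + B.eval a * b = 0 := by
        have h2 := ((hPx.aeval A).add ((hPx.aeval B).mul hPy))
        exact h2.unique (hval P hPx (hu P hPO))
      have h2 : A.eval a + B.eval a * (-b) = 0 := by
        have hx' := E.comp_x hPx
        have h2 := ((hx'.aeval A).add ((hx'.aeval B).mul (E.comp_y hPy)))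
        exact h2.unique (hval _ hx' (hu _ (E.ne_W hx')))
      have hA : A.eval a = 0 := by
        have : (2 : k) * A.eval a = 0 := by linear_combination h1 + h2
        exact (mul_eq_zero.1 this).resolve_left two_ne_zero
      have hB : B.eval a = 0 := by
        by_cases hb0 : b = 0
        · subst hb0
          by_contra hBa
          have hB0 : B ≠ 0 := by
            rintro rfl
            exact hBa eval_zero
          have ho := (E.ord_x hPx hPy).1 rfl
          have hyo := E.ord_y hPx hPy
          have hge : ∀ p : k[X], p.eval a = 0 → aeval x p = 0 ∨ 2 ≤ P.ord (aeval x p) := by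
            intro p hp
            by_cases hp0 : p = 0
            · left; rw [hp0, map_zero]
            · right
              obtain ⟨p', rfl⟩ := dvd_iff_isRoot.2 hp
              have hp' : p' ≠ 0 := right_ne_zero_of_mul hp0
              rw [map_mul, map_sub, aeval_X, aeval_C, P.ord_mul (E.h.xa_ne a) (E.aeval_ne hp'), ho]
              have := (P.reg_iff (E.aeval_ne hp')).1 (hPx.aeval p').1
              omega
          have h3 : P.ord (aeval x B * y) = 1 := by
            rw [P.ord_mul (E.aeval_ne hB0) E.y_ne, hyo, (hPx.aeval B).ord_eq_zero hBa]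
            norm_num
          have hne : aeval x B * y ≠ 0 := mul_ne_zero (E.aeval_ne hB0) E.y_ne
          -- `B y = u D - A`
          have h4 : aeval x B * y = u * aeval x D - aeval x A := by rw [h]; ring
          have h5 : u * aeval x D = 0 ∨ 2 ≤ P.ord (u * aeval x D) := by
            by_cases hu0 : u = 0
            · left; rw [hu0, zero_mul]
            · right
              rw [P.ord_mul hu0 (E.aeval_ne hD)]
              have h6 := (P.reg_iff hu0).1 (hu P hPO)
              have h7 := (hge D ha).resolve_left (E.aeval_ne hD)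
              omega
          have h6 := hge A hA
          rcases h5 with h5 | h5
          · rw [h5, zero_sub] at h4
            rcases h6 with h6 | h6
            · rw [h6, neg_zero] at h4
              exact hne h4
            · rw [h4, P.ord_neg] at h3
              omega
          · rcases h6 with h6 | h6
            · rw [h6, sub_zero] at h4
              rw [h4] at h3
              omega
            · by_cases e1 : u * aeval x D = 0
              · rw [e1, P.ord_zero] at h5
                omega
              by_cases e2 : aeval x A = 0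
              · rw [e2, P.ord_zero] at h6
                omega
              rw [h4] at hne h3
              have h7 := P.ord_sub e1 e2 hne
              rw [h3] at h7
              have h8 : (2 : ℤ) ≤ min (P.ord (u * aeval x D)) (P.ord (aeval x A)) := le_min h5 h6
              omega
        · rw [hA, zero_add] at h1
          exact (mul_eq_zero.1 h1).resolve_right hb0
      obtain ⟨A', rfl⟩ := dvd_iff_isRoot.2 hA
      obtain ⟨B', rfl⟩ := dvd_iff_isRoot.2 hB
      subst hD'
      have hD0 : D' ≠ 0 := right_ne_zero_of_mul hD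
      refine ih A' B' D' hD0 ?_ ?_
      · rw [natDegree_mul (X_sub_C_ne_zero a) hD0, natDegree_X_sub_C] at hn
        omega
      · apply mul_left_cancel₀ (E.h.xa_ne a)
        rw [map_mul, map_mul, map_mul, map_sub, aeval_X, aeval_C] at h
        linear_combination h
  obtain ⟨A, B, D, hD, h⟩ := E.h.decomp E.sep E.deg u
  exact key _ A B D hD rfl h

end PreH


/-- The curve `y² = f(x)`, `f` separable of odd degree, with its involution and the point `W` over
`x = ∞`; the functions regular outside `W` are the polynomials in `x`, `y`. -/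
structure Hy (f : k[X]) (x y : K) (σ : K ≃ₐ[k] K) (W : Place k K) : Prop where
  h : Dbl k f x y
  sep : f.Separable
  odd : Odd f.natDegree
  sx : σ x = x
  sy : σ y = -y
  ox : W.ord x = -2
  oy : W.ord y = -f.natDegree
  reg : Aff W x
  int : ∀ u : K, Aff W u → ∃ A B : k[X], u = aeval x A + aeval x B * y

/-- **The curve `y² = f(x)`.** -/
theorem hy_of_dbl {f : k[X]} {x y : K} (h : Dbl k f x y) (sep : f.Separable)
    (odd : Odd f.natDegree) : ∃ (σ : K ≃ₐ[k] K) (W : Place k K), Hy f x y σ W := by
  obtain ⟨σ, W, E⟩ := exists_preH h sep odd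
  exact ⟨σ, W, E.h, E.sep, E.odd, E.sx, E.sy, E.ox, E.oy, E.reg, fun u hu => E.integral hu⟩

namespace Hy

variable {f : k[X]} {x y : K} {σ : K ≃ₐ[k] K} {W : Place k K}

lemma deg (E : Hy f x y σ W) : 0 < f.natDegree := E.odd.pos

lemma x_ne (E : Hy f x y σ W) : x ≠ 0 := ne_zero_of_ord (P := W) (by rw [E.ox]; norm_num)

lemma y_ne (E : Hy f x y σ W) : y ≠ 0 := ne_zero_of_ord (P := W) (by
  rw [E.oy]
  have := E.deg
  omega)

lemma ne_W (E : Hy f x y σ W) {P : Place k K} {a : k} (h : At P x a) : P ≠ W := by
  rintro rfl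
  have := (P.reg_iff E.x_ne).1 h.1
  rw [E.ox] at this
  omega

lemma cases (E : Hy f x y σ W) (P : Place k K) :
    P = W ∨ ∃ a b, At P x a ∧ At P y b ∧ b ^ 2 = f.eval a := by
  by_cases h : P = W
  · exact Or.inl h
  · right
    obtain ⟨a, ha⟩ := exists_at (E.reg P h)
    obtain ⟨b, hb, he⟩ := E.h.y_at ha
    exact ⟨a, b, ha, hb, he⟩

lemma exists_pt (E : Hy f x y σ W) {a b : k} (h : b ^ 2 = f.eval a) :
    ∃ P : Place k K, At P x a ∧ At P y b :=
  E.h.exists_at E.sep E.deg h

lemma ext (E : Hy f x y σ W) {P P' : Place k K} {a b : k} (ha : At P x a) (hb : At P y b)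
    (ha' : At P' x a) (hb' : At P' y b) : P = P' :=
  E.h.eq_of_at E.sep E.deg ha' hb' ha hb

lemma comp_x (E : Hy f x y σ W) {P : Place k K} {a : k} (ha : At P x a) :
    At (P.comp σ) x a := by rw [at_comp, E.sx]; exact ha

lemma comp_y (E : Hy f x y σ W) {P : Place k K} {b : k} (hb : At P y b) :
    At (P.comp σ) y (-b) := by rw [at_comp, E.sy]; exact hb.neg

lemma comp_W (E : Hy f x y σ W) : W.comp σ = W := by
  by_contra hne
  have h1 := (Place.reg_iff _ E.x_ne).1 (E.reg _ hne)
  have h2 : (W.comp σ).ord x = W.ord (σ x) := rfl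
  rw [h2, E.sx, E.ox] at h1
  omega

lemma comp_comp (E : Hy f x y σ W) (P : Place k K) : (P.comp σ).comp σ = P := by
  rcases E.cases P with rfl | ⟨c, d, hc, hd, -⟩
  · rw [E.comp_W, E.comp_W]
  · have h4 := E.comp_y (E.comp_y hd)
    rw [neg_neg] at h4
    exact E.ext (E.comp_x (E.comp_x hc)) h4 hc hd

lemma ord_x (E : Hy f x y σ W) {Q : Place k K} {a b : k} (ha : At Q x a) (hb : At Q y b) :
    (b = 0 → Q.ord (x - algebraMap k K a) = 2) ∧ (b ≠ 0 → Q.ord (x - algebraMap k K a) = 1) :=
  (E.h.over E.sep E.sx E.sy ha hb Q ha).2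

lemma ord_x_ne (E : Hy f x y σ W) {Q : Place k K} {a a' : k} (ha : At Q x a) (hne : a ≠ a') :
    Q.ord (x - algebraMap k K a') = 0 := by
  have h1 := ha.sub (at_const Q a')
  exact h1.ord_eq_zero (sub_ne_zero.2 hne)

/-- the divisor of `x - a` -/
lemma div_x (E : Hy f x y σ W) {P : Place k K} {a b : k} (ha : At P x a) (hb : At P y b) :
    divisor k (x - algebraMap k K a) =
      Finsupp.single P 1 + Finsupp.single (P.comp σ) 1 - Finsupp.single W 2 := by
  classical
  ext Q
  rw [divisor_apply, Finsupp.sub_apply, Finsupp.add_apply, Finsupp.single_apply,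
    Finsupp.single_apply, Finsupp.single_apply]
  by_cases hQ : Q = W
  · subst hQ
    have h1 := E.ne_W ha
    have h2 := E.ne_W (E.comp_x ha)
    rw [if_neg h1, if_neg h2, if_pos rfl]
    have := (ord_sub_const (P := Q) (x := x) (by rw [E.ox]; omega) a).2
    rw [this, E.ox]
    norm_num
  · rw [if_neg (Ne.symm hQ), sub_zero]
    obtain ⟨c, d, hc, hd, -⟩ := (E.cases Q).resolve_left hQ
    by_cases hca : c = a
    · subst hca
      have h1 := (E.h.over E.sep E.sx E.sy ha hb Q hc).1
      by_cases hb0 : b = 0
      · subst hb0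
        have h2 : P.comp σ = P := by
          have := E.comp_y hb
          rw [neg_zero] at this
          exact E.ext (E.comp_x ha) this ha hb
        rw [h2] at h1 ⊢
        have h3 : Q = P := by rcases h1 with h1 | h1 <;> exact h1
        subst h3
        rw [if_pos rfl, (E.ord_x ha hb).1 rfl]
        norm_num
      · have h2 : P.comp σ ≠ P := by
          intro h2
          have := E.comp_y hb
          rw [h2] at this
          have h3 := hb.unique this
          apply hb0
          have h4 : (2 : k) * b = 0 := by linear_combination h3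
          exact (mul_eq_zero.1 h4).resolve_left two_ne_zero
        rcases h1 with h1 | h1
        · subst h1
          rw [if_pos rfl, if_neg h2, (E.ord_x ha hb).2 hb0]
          norm_num
        · rw [h1, if_neg (Ne.symm h2), if_pos rfl,
            (E.ord_x (E.comp_x ha) (E.comp_y hb)).2 (neg_ne_zero.2 hb0)]
          norm_num
    · rw [E.ord_x_ne hc hca, if_neg, if_neg]
      · norm_num
      · intro h1
        have h2 := E.comp_x ha
        rw [h1] at h2
        exact hca (hc.unique h2)
      · intro h1
        rw [h1] at ha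
        exact hca (hc.unique ha)


lemma dz_neg (E : Hy f x y σ W) (P : Place k K) : dz W P + dz W (P.comp σ) = 0 := by
  rcases E.cases P with rfl | ⟨a, b, ha, hb, -⟩
  · rw [E.comp_W, dz, sub_self, add_zero]
  · have h1 : cz (divisor k (x - algebraMap k K a)) = 0 :=
      cz_eq_zero.2 ⟨_, E.h.xa_ne a, rfl⟩
    rw [E.div_x ha hb, map_sub, map_add, single_two, map_add] at h1
    unfold dz
    rw [← h1]
    abel

lemma dif_neg (E : Hy f x y σ W) (P : Place k K) : dif W (P.comp σ) = - dif W P := by
  have h := congrArg (toQ (k := k) (K := K)) (E.dz_neg P)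
  rw [map_add, map_zero, toQ_dz, toQ_dz, add_comm] at h
  exact eq_neg_of_add_eq_zero_left h

/-- The action of the Galois group. -/
theorem exists_act (E : Hy f x y σ W) (F : IntermediateField ℚ k) (hF : ∀ i, f.coeff i ∈ F)
    (τ : k ≃ₐ[F] k) : ∃ (T : Place k K → Place k K) (tQ : PicQ k K →ₗ[ℚ] PicQ k K)
      (tZ : ClZ k K →+ ClZ k K), T W = W ∧ (∀ P a, At P x a → At (T P) x (τ.symm a)) ∧
      (∀ P b, At P y b → At (T P) y (τ.symm b)) ∧ (∀ P, tQ (dif W P) = dif W (T P)) ∧
      (∀ P, tZ (dz W P) = dz W (T P)) ∧ ∀ D : Place k K →₀ ℤ, tZ (cz D) = cz (D.mapDomain T) := by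
  obtain ⟨Φ, h1, h2, h3⟩ := E.h.exists_semi E.sep E.deg (τ : k ≃+* k) (by
    ext i
    rw [coeff_map]
    exact τ.commutes ⟨f.coeff i, hF i⟩)
  set T := tw (τ : k ≃+* k) Φ h1 with hT
  have hTW : T W = W := by
    by_contra hne
    have h4 := ((T W).reg_iff E.x_ne).1 (E.reg _ hne)
    have h5 : (T W).ord x = W.ord (Φ x) := rfl
    rw [h5, h2, E.ox] at h4
    omega
  refine ⟨T, twP (τ : k ≃+* k) Φ h1, twZ (τ : k ≃+* k) Φ h1, hTW, ?_, ?_, ?_, ?_, ?_⟩
  · intro P a ha
    rw [hT, at_tw, h2]
    have : (τ : k ≃+* k) (τ.symm a) = a := τ.apply_symm_apply a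
    rw [this]
    exact ha
  · intro P b hb
    rw [hT, at_tw, h3]
    have : (τ : k ≃+* k) (τ.symm b) = b := τ.apply_symm_apply b
    rw [this]
    exact hb
  · intro P
    rw [twP_dif, ← hT, hTW]
  · intro P
    rw [twZ_dz, ← hT, hTW]
  · intro D
    rw [twZ_cz]

end Hy

end

end Pool.Agent.H834.K4
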