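import Pool.Agent.H834.K4.Rel

/-!
# Zero-cycles on the quotient of `E × D` by a cyclic group
-/

set_option autoImplicit false
set_option linter.unusedSectionVars false
set_option linter.unusedVariables false

namespace Pool.Agent.H834.K4

open FF Polynomial Module Pool.Agent.Q70.CH Pool.Agent.Q70.KM Pool.Agent.H834.E
  Pool.Agent.H834.KJ Pool.Agent.H834.ED

section

variable {k : Type} [Field k] [CharZero k] [IsAlgClosed k]
  {K : Type} [Field K] [Algebra k K] [IsFF k K] {L : Type} [Field L] [Algebra k L] [IsFF k L]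

/-- The classes `β` of degree zero on `D` such that `α × β` lies in `N`. -/
noncomputable def annN (N : Submodule ℚ (CH0 k K L)) (α : PicQ k K) : Submodule ℚ (PicQ k L) :=
  Pic0 k L ⊓ N.comap (times α)

lemma mem_annN {N : Submodule ℚ (CH0 k K L)} {α : PicQ k K} {β : PicQ k L} :
    β ∈ annN N α ↔ β ∈ Pic0 k L ∧ times α β ∈ N := Iff.rfl

/-- The assumptions on the subspace `N` of relations. -/
structure Nice (N : Submodule ℚ (CH0 k K L)) (c₀ : k) (m : ℕ) (x y : K) (x' y' : L)
    (σ : K ≃ₐ[k] K) (σ' : L ≃ₐ[k] L) : Prop where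
  inv : ∀ (P : Place k K) (Q : Place k L),
    cl2 (Finsupp.single (P.comp σ, Q.comp σ') 1) - cl2 (Finsupp.single (P, Q) 1) ∈ N
  orb : ∀ (P P' : Place k K) (Q Q' : Place k L) (a a₁ b b₁ b' b₁' : k), At P x a → At P y b →
    At Q x' a → At Q y' b' → b ≠ 0 → At P' x a₁ → At P' y b₁ → At Q' x' a₁ → At Q' y' b₁' →
    (a₁ - c₀) ^ m = (a - c₀) ^ m → b₁' * b = b' * b₁ →
    cl2 (Finsupp.single (P', Q') 1) - cl2 (Finsupp.single (P, Q) 1) ∈ N

section

variable {l c₀ c d : k} {m : ℕ} {x y : K} {σ : K ≃ₐ[k] K} {O : Place k K} {x' y' : L}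
  {σ' : L ≃ₐ[k] L} {W : Place k L} {N : Submodule ℚ (CH0 k K L)}

lemma half_mem {z : CH0 k K L} (h : (2 : ℚ) • z ∈ N) : z ∈ N := by
  have := N.smul_mem (1 / 2 : ℚ) h
  rwa [smul_smul, one_div, inv_mul_cancel₀ two_ne_zero, one_smul] at this

lemma pt_comp (hd : ∀ P : Place k K, dif O (P.comp σ) = - dif O P) (P : Place k K) :
    pt (P.comp σ) = (2 : ℚ) • pt O - pt P := by
  have := hd P
  unfold dif at this
  rw [two_smul, eq_add_of_sub_eq this]
  abel

/-- The consequences of the invariance under the two involutions. -/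
lemma sides (hd : ∀ P : Place k K, dif O (P.comp σ) = - dif O P)
    (hd' : ∀ Q : Place k L, dif W (Q.comp σ') = - dif W Q)
    (inv : ∀ (P : Place k K) (Q : Place k L),
      cl2 (Finsupp.single (P.comp σ, Q.comp σ') 1) - cl2 (Finsupp.single (P, Q) 1) ∈ N)
    (P : Place k K) (Q : Place k L) :
    times (pt O) (dif W Q) ∈ N ∧ times (dif O P) (pt W) ∈ N := by
  have key : ∀ (P : Place k K) (Q : Place k L),
      times (dif O P) (pt W) + times (pt O) (dif W Q) ∈ N := by
    intro P Q
    have h := inv P Q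
    rw [← times_pt, ← times_pt, pt_comp hd, pt_comp hd'] at h
    have h2 : (-2 : ℚ) • (times (dif O P) (pt W) + times (pt O) (dif W Q)) =
        times ((2 : ℚ) • pt O - pt P) ((2 : ℚ) • pt W - pt Q) - times (pt P) (pt Q) := by
      unfold dif
      simp only [map_sub, map_smul, LinearMap.sub_apply, LinearMap.smul_apply]
      module
    rw [← h2] at h
    apply half_mem
    have h3 := N.neg_mem h
    rwa [← neg_smul, neg_neg] at h3
  have h1 := key O Q
  have h2 := key P W
  rw [show dif O O = 0 from sub_self _, map_zero, LinearMap.zero_apply, zero_add] at h1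
  rw [show dif W W = 0 from sub_self _, map_zero, add_zero] at h2
  exact ⟨h1, h2⟩

/-- The exterior product of `P - O` and `Q - W` lies in `N` if `x(P) = x'(Q)`. -/
theorem times_mem (hm : 0 < m) (hcd : c ≠ d) (E : Ell l x y σ O)
    (E' : Hy (fD l c₀ c d m) x' y' σ' W) (hN : Nice N c₀ m x y x' y' σ σ')
    {P : Place k K} {Q : Place k L} {a b b' : k} (ha : At P x a) (hb : At P y b) (ha' : At Q x' a)
    (hb' : At Q y' b') (hb0 : b ≠ 0) : times (dif O P) (dif W Q) ∈ N := by
  by_cases hb'0 : b' = 0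
  · have h1 : Q.comp σ' = Q := by
      subst hb'0
      have := E'.comp_y hb'
      rw [neg_zero] at this
      exact E'.ext (E'.comp_x ha') this ha' hb'
    have h2 := E'.dif_neg Q
    rw [h1] at h2
    have h3 : (2 : ℚ) • dif W Q = 0 := by
      rw [two_smul]
      nth_rewrite 1 [h2]
      exact neg_add_cancel _
    rw [(smul_eq_zero.1 h3).resolve_left two_ne_zero, map_zero]
    exact N.zero_mem
  · have h := rel hm hcd E E' ha hb ha' hb' hb0 hb'0 N
      (fun P' Q' a₁ b₁ b₁' h1 h2 h3 h4 h5 h6 =>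
        hN.orb P P' Q Q' a a₁ b b₁ b' b₁' ha hb ha' hb' hb0 h1 h2 h3 h4 h5 h6)
    obtain ⟨h1, h2⟩ := sides E.dif_neg E'.dif_neg hN.inv P Q
    rw [← times_pt, ← times_pt] at h
    have h3 : times (dif O P) (dif W Q) = (times (pt P) (pt Q) - times (pt O) (pt W)) -
        times (pt O) (dif W Q) - times (dif O P) (pt W) := by
      unfold dif
      simp only [map_sub, LinearMap.sub_apply]
      abel
    rw [h3]
    exact N.sub_mem (N.sub_mem h h1) h2

/-- The classes of degree zero are generated by the differences of points. -/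
lemma pic0_span (W : Place k L) : Pic0 k L ≤ Submodule.span ℚ (Set.range (dif W)) := by
  rintro _ ⟨v, hv, rfl⟩
  have key : ∀ v : Place k L →₀ ℚ, mkP v - dg v • pt W ∈ Submodule.span ℚ (Set.range (dif W)) := by
    intro v
    induction v using Finsupp.induction_linear with
    | zero => simp
    | add v w hv hw =>
      have := add_mem hv hw
      rw [map_add, map_add]
      have h2 : mkP v + mkP w - (dg v + dg w) • pt W =
          mkP v - dg v • pt W + (mkP w - dg w • pt W) := by module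
      rw [h2]
      exact this
    | single P c =>
      have h1 : (mkP (Finsupp.single P c) : PicQ k L) = c • pt P := by
        unfold pt
        rw [← map_smul, Finsupp.smul_single, smul_eq_mul, mul_one]
      rw [h1, dg_single, ← smul_sub]
      exact Submodule.smul_mem _ _ (Submodule.subset_span ⟨P, rfl⟩)
  have h0 : dg v = 0 := hv
  have := key v
  rwa [h0, zero_smul, sub_zero] at this

/-- Every class is the sum of a multiple of the origin and a class of degree zero. -/
lemma pic_split (O : Place k K) (α : PicQ k K) : ∃ (n : ℚ) (α₀ : PicQ k K), α₀ ∈ Pic0 k K ∧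
    α = n • pt O + α₀ := by
  obtain ⟨v, rfl⟩ := mkP_surjective α
  refine ⟨dg v, mkP (v - Finsupp.single O (dg v)), ⟨_, ?_, rfl⟩, ?_⟩
  · change dg _ = 0
    rw [map_sub, dg_single, sub_self]
  · have h1 : (mkP (Finsupp.single O (dg v)) : PicQ k K) = dg v • pt O := by
      unfold pt
      rw [← map_smul, Finsupp.smul_single, smul_eq_mul, mul_one]
    rw [map_sub, h1]
    abel

end

/-- **Main theorem.** -/
theorem main_ne [Algebra.IsAlgebraic ℚ k] {l c₀ c d : k} {m : ℕ} (hm : 0 < m) (hcd : c ≠ d)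
    (hmon : (fD l c₀ c d m).Monic) (hdeg : 6 ≤ (fD l c₀ c d m).natDegree)
    {x y : K} {σ : K ≃ₐ[k] K} {O : Place k K} (E : Ell l x y σ O) {x' y' : L} {σ' : L ≃ₐ[k] L}
    {W : Place k L} (E' : Hy (fD l c₀ c d m) x' y' σ' W) {N : Submodule ℚ (CH0 k K L)}
    (hN : Nice N c₀ m x y x' y' σ σ') (α : PicQ k K) : ¬ FiniteDimensional ℚ (annN N α) := by
  classical
  obtain ⟨r, α₀, hα₀, rfl⟩ := pic_split O α
  have hO : ∀ β ∈ Pic0 k L, times (pt O) β ∈ N := by
    intro β hβ
    have h1 := pic0_span W hβ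
    have h2 : Submodule.span ℚ (Set.range (dif W)) ≤ N.comap (times (pt O)) := by
      rw [Submodule.span_le]
      rintro _ ⟨Q, rfl⟩
      exact (sides E.dif_neg E'.dif_neg hN.inv O Q).1
    exact h2 h1
  have hsub : ∀ β ∈ Pic0 k L, times α₀ β ∈ N → β ∈ annN N (r • pt O + α₀) := by
    intro β hβ h
    refine ⟨hβ, ?_⟩
    change times (r • pt O + α₀) β ∈ N
    rw [map_add, map_smul, LinearMap.add_apply, LinearMap.smul_apply]
    exact N.add_mem (N.smul_mem r (hO β hβ)) h
  by_cases hα0 : α₀ = 0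
  · have hQ : ∀ i : ℕ, ∃ Q : Place k L, At Q x' (i : k) := by
      intro i
      obtain ⟨b, hb⟩ : ∃ b : k, b ^ 2 = (fD l c₀ c d m).eval (i : k) :=
        IsAlgClosed.exists_pow_nat_eq _ (n := 2) (by norm_num)
      obtain ⟨Q, h1, -⟩ := E'.exists_pt hb
      exact ⟨Q, h1⟩
    choose Q hQ using hQ
    refine span_infinite E' hmon hdeg ⊥ (A := fun i : ℕ => (i : k)) (fun i => natCast_mem _ i)
      Nat.cast_injective hQ (fun i => hsub _ (dif_mem _ _) ?_)
    rw [hα0, map_zero, LinearMap.zero_apply]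
    exact N.zero_mem
  · obtain ⟨n, hn, P, hP⟩ := E.pic0_pt hα₀
    have hnQ : (n : ℚ) ≠ 0 := Nat.cast_ne_zero.2 hn.ne'
    have hdP : dif O P ≠ 0 := by
      rw [← hP]
      exact smul_ne_zero hnQ hα0
    have hPO : P ≠ O := by
      rintro rfl
      exact hdP (sub_self _)
    obtain ⟨a, b, ha, hb, -⟩ := (E.cases P).resolve_left hPO
    let F₀ : IntermediateField ℚ k := IntermediateField.adjoin ℚ {l, a, b}
    have hF₀ : FiniteDimensional ℚ F₀ := IntermediateField.finiteDimensional_adjoin
      (fun z _ => (Algebra.IsAlgebraic.isAlgebraic z).isIntegral)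
    have hl₀ : l ∈ F₀ := IntermediateField.subset_adjoin _ _ (by simp)
    have ha₀ : a ∈ F₀ := IntermediateField.subset_adjoin _ _ (by simp)
    have hb₀ : b ∈ F₀ := IntermediateField.subset_adjoin _ _ (by simp)
    choose R A B hA hB hAF hBF hB0 hR using fun i =>
      E.dbl_seq F₀.toSubfield hl₀ ha hb ha₀ hb₀ hdP i
    have hAinj : Function.Injective A := by
      intro i j hij
      have h1 := hA j
      rw [← hij] at h1
      exact E.dbl_inj hdP (hA i) (hB i) h1 (hB j) (hR i) (hR j)
    have hQ : ∀ i, ∃ (Q : Place k L) (e : k), At Q x' (A i) ∧ At Q y' e := by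
      intro i
      obtain ⟨e, he⟩ : ∃ e : k, e ^ 2 = (fD l c₀ c d m).eval (A i) :=
        IsAlgClosed.exists_pow_nat_eq _ (n := 2) (by norm_num)
      obtain ⟨Q, h1, h2⟩ := E'.exists_pt he
      exact ⟨Q, e, h1, h2⟩
    choose Q C' hQA hQC using hQ
    refine span_infinite E' hmon hdeg F₀ (A := A) hAF hAinj hQA
      (fun i => hsub _ (dif_mem _ _) ?_)
    have h1 := times_mem hm hcd E E' hN (hA i) (hB i) (hQA i) (hQC i) (hB0 i)
    rw [hR i, ← hP, smul_smul, map_smul, LinearMap.smul_apply] at h1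
    have h2 := N.smul_mem ((2 : ℚ) ^ i * n)⁻¹ h1
    rwa [smul_smul, inv_mul_cancel₀ (mul_ne_zero (pow_ne_zero _ two_ne_zero) hnQ), one_smul] at h2

end

end Pool.Agent.H834.K4
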