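import Pool.Agent.H834.K4.Main
import Pool.Agent.H834.E.Fin

/-!
# The quotients of `E × D` by cyclic groups of order four and six
-/

set_option autoImplicit false
set_option linter.unusedSectionVars false
set_option linter.unusedVariables false

namespace Pool.Agent.H834.K4

open FF Polynomial Module Pool.Agent.Q70.CH Pool.Agent.Q70.KM Pool.Agent.H834.E
  Pool.Agent.H834.KJ Pool.Agent.H834.ED

section

variable {k : Type} [Field k] [CharZero k] {K : Type} [Field K] [Algebra k K]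
  {L : Type} [Field L] [Algebra k L]

/-- The subspace of `CH_0(E × D) ⊗ ℚ` spanned by the differences `[(ρ P, ρ' Q)] - [(P, Q)]`. -/
noncomputable def relG (ρ : K ≃ₐ[k] K) (ρ' : L ≃ₐ[k] L) : Submodule ℚ (CH0 k K L) :=
  Submodule.span ℚ (Set.range fun z : Place k K × Place k L =>
    cl2 (Finsupp.single (z.1.comp ρ, z.2.comp ρ') 1) - cl2 (Finsupp.single z 1))

lemma comp_succ (P : Place k K) (ρ : K ≃ₐ[k] K) (j : ℕ) :
    P.comp (ρ ^ (j + 1)) = (P.comp (ρ ^ j)).comp ρ := rfl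

lemma relG_pow (ρ : K ≃ₐ[k] K) (ρ' : L ≃ₐ[k] L) (P : Place k K) (Q : Place k L) (j : ℕ) :
    cl2 (Finsupp.single (P.comp (ρ ^ j), Q.comp (ρ' ^ j)) 1) - cl2 (Finsupp.single (P, Q) 1) ∈
      relG ρ ρ' := by
  induction j with
  | zero =>
    have h1 : P.comp (ρ ^ 0) = P := rfl
    have h2 : Q.comp (ρ' ^ 0) = Q := rfl
    rw [h1, h2, sub_self]
    exact Submodule.zero_mem _
  | succ j ih =>
    rw [comp_succ, comp_succ]
    have h1 : cl2 (Finsupp.single ((P.comp (ρ ^ j)).comp ρ, (Q.comp (ρ' ^ j)).comp ρ') 1) -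
        cl2 (Finsupp.single (P.comp (ρ ^ j), Q.comp (ρ' ^ j)) 1) ∈ relG ρ ρ' :=
      Submodule.subset_span ⟨(P.comp (ρ ^ j), Q.comp (ρ' ^ j)), rfl⟩
    have h2 := Submodule.add_mem _ h1 ih
    rwa [sub_add_sub_cancel] at h2

end

section

variable {k : Type} [Field k] [CharZero k] [IsAlgClosed k]
  {K : Type} [Field K] [Algebra k K] [IsFF k K] {L : Type} [Field L] [Algebra k L] [IsFF k L]

lemma pow_act {M : Type} [Field M] [Algebra k M] {ρ : M ≃ₐ[k] M} {x y : M} {ζ ε c₀ : k}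
    (hx : ρ x = algebraMap k M ζ * (x - algebraMap k M c₀) + algebraMap k M c₀)
    (hy : ρ y = algebraMap k M ε * y) (j : ℕ) :
    (ρ ^ j) x = algebraMap k M (ζ ^ j) * (x - algebraMap k M c₀) + algebraMap k M c₀ ∧
      (ρ ^ j) y = algebraMap k M (ε ^ j) * y := by
  induction j with
  | zero =>
    refine ⟨?_, ?_⟩
    · change x = _
      rw [pow_zero, map_one]
      ring
    · change y = _
      rw [pow_zero, map_one, one_mul]
  | succ j ih =>
    refine ⟨?_, ?_⟩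
    · change (ρ ^ j) (ρ x) = _
      rw [hx, map_add, map_mul, map_sub, AlgEquiv.commutes, AlgEquiv.commutes, ih.1, pow_succ,
        map_mul]
      ring
    · change (ρ ^ j) (ρ y) = _
      rw [hy, map_mul, AlgEquiv.commutes, ih.2, pow_succ, map_mul]
      ring

lemma comp_pow_at {M : Type} [Field M] [Algebra k M] [IsFF k M] {ρ : M ≃ₐ[k] M} {x y : M}
    {ζ ε c₀ : k}
    (hx : ρ x = algebraMap k M ζ * (x - algebraMap k M c₀) + algebraMap k M c₀)
    (hy : ρ y = algebraMap k M ε * y) (j : ℕ) {P : Place k M} {a b : k} (ha : At P x a)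
    (hb : At P y b) : At (P.comp (ρ ^ j)) x (ζ ^ j * (a - c₀) + c₀) ∧
      At (P.comp (ρ ^ j)) y (ε ^ j * b) := by
  obtain ⟨h1, h2⟩ := pow_act hx hy j
  rw [at_comp, at_comp, h1, h2]
  exact ⟨((at_const P _).mul (ha.sub (at_const P c₀))).add (at_const P c₀),
    (at_const P _).mul hb⟩

lemma pow_eq_inv {M : Type} [Field M] [Algebra k M] {f : k[X]} {x y : M} (h : Dbl k f x y)
    {ρ σ : M ≃ₐ[k] M} {ζ ε c₀ : k} {m : ℕ}
    (hx : ρ x = algebraMap k M ζ * (x - algebraMap k M c₀) + algebraMap k M c₀)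
    (hy : ρ y = algebraMap k M ε * y) (hζ : ζ ^ m = 1) (hε : ε ^ m = -1) (sx : σ x = x)
    (sy : σ y = -y) : ρ ^ m = σ := by
  obtain ⟨h1, h2⟩ := pow_act hx hy m
  rw [hζ, map_one] at h1
  rw [hε, map_neg, map_one] at h2
  have h3 : ((ρ ^ m : M ≃ₐ[k] M) : M →+* M) = (σ : M →+* M) := by
    refine h.hom_ext (fun c => ?_) ?_ ?_
    · change (ρ ^ m) _ = σ _
      rw [AlgEquiv.commutes, AlgEquiv.commutes]
    · change (ρ ^ m) _ = σ _
      rw [h1, sx]
      ring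
    · change (ρ ^ m) _ = σ _
      rw [h2, sy]
      ring
  ext z
  exact congrArg (fun g : M →+* M => g z) h3

/-- The relations of the quotient by the cyclic group generated by `(ρ, ρ')`. -/
theorem nice {l c₀ c d ζ ε : k} {m : ℕ} {x y : K} {σ : K ≃ₐ[k] K} {O : Place k K}
    (E : Ell l x y σ O) {x' y' : L} {σ' : L ≃ₐ[k] L} {W : Place k L}
    (E' : Hy (fD l c₀ c d m) x' y' σ' W) (hm : 0 < m) (hζ : IsPrimitiveRoot ζ m) (hε : ε ^ m = -1)
    {ρ : K ≃ₐ[k] K} {ρ' : L ≃ₐ[k] L}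
    (hx : ρ x = algebraMap k K ζ * (x - algebraMap k K c₀) + algebraMap k K c₀)
    (hy : ρ y = algebraMap k K ε * y)
    (hx' : ρ' x' = algebraMap k L ζ * (x' - algebraMap k L c₀) + algebraMap k L c₀)
    (hy' : ρ' y' = algebraMap k L ε * y') : Nice (relG ρ ρ') c₀ m x y x' y' σ σ' := by
  have hσ : ρ ^ m = σ := pow_eq_inv E.h hx hy hζ.pow_eq_one hε E.sx E.sy
  have hσ' : ρ' ^ m = σ' := pow_eq_inv E'.h hx' hy' hζ.pow_eq_one hε E'.sx E'.sy
  have inv : ∀ (P : Place k K) (Q : Place k L),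
      cl2 (Finsupp.single (P.comp σ, Q.comp σ') 1) - cl2 (Finsupp.single (P, Q) 1) ∈
        relG ρ ρ' := by
    intro P Q
    rw [← hσ, ← hσ']
    exact relG_pow ρ ρ' P Q m
  refine ⟨inv, ?_⟩
  intro P P' Q Q' a a₁ b b₁ b' b₁' ha hb ha' hb' hb0 ha₁ hb₁ ha₁' hb₁' hpow hbb
  -- the exponent
  obtain ⟨j, hj⟩ : ∃ j : ℕ, a₁ - c₀ = ζ ^ j * (a - c₀) := by
    by_cases h0 : a - c₀ = 0
    · refine ⟨0, ?_⟩
      rw [h0, zero_pow hm.ne'] at hpow
      rw [h0, mul_zero]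
      exact pow_eq_zero_iff hm.ne' |>.1 hpow
    · have h1 : ((a₁ - c₀) / (a - c₀)) ^ m = 1 := by
        rw [div_pow, hpow, div_self (pow_ne_zero m h0)]
      have : NeZero m := ⟨hm.ne'⟩
      obtain ⟨j, -, hj⟩ := hζ.eq_pow_of_pow_eq_one h1
      refine ⟨j, ?_⟩
      rw [hj, div_mul_cancel₀ _ h0]
  have ha₁e : ζ ^ j * (a - c₀) + c₀ = a₁ := by rw [← hj]; ring
  obtain ⟨h1, h2⟩ := comp_pow_at hx hy j ha hb
  obtain ⟨h3, h4⟩ := comp_pow_at hx' hy' j ha' hb'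
  rw [ha₁e] at h1 h3
  have h5 := E.b_sq h1 h2
  have h6 := E.b_sq ha₁ hb₁
  rw [← h5] at h6
  have h7 := relG_pow ρ ρ' P Q j
  rcases sq_eq_sq_iff_eq_or_eq_neg.1 h6 with h8 | h8
  · have h9 : b₁' = ε ^ j * b' := by
      apply mul_right_cancel₀ hb0
      rw [hbb, h8]
      ring
    have e1 : P' = P.comp (ρ ^ j) := E.ext ha₁ (by rw [h8] at hb₁; exact hb₁) h1 h2
    have e2 : Q' = Q.comp (ρ' ^ j) := E'.ext ha₁' (by rw [h9] at hb₁'; exact hb₁') h3 h4
    rw [e1, e2]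
    exact h7
  · have h9 : b₁' = -(ε ^ j * b') := by
      apply mul_right_cancel₀ hb0
      rw [hbb, h8]
      ring
    have e1 : P' = (P.comp (ρ ^ j)).comp σ :=
      E.ext ha₁ (by rw [h8] at hb₁; exact hb₁) (E.comp_x h1) (E.comp_y h2)
    have e2 : Q' = (Q.comp (ρ' ^ j)).comp σ' :=
      E'.ext ha₁' (by rw [h9] at hb₁'; exact hb₁') (E'.comp_x h3) (E'.comp_y h4)
    rw [e1, e2]
    have h10 := Submodule.add_mem _ (inv (P.comp (ρ ^ j)) (Q.comp (ρ' ^ j))) h7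
    rwa [sub_add_sub_cancel] at h10

end

end Pool.Agent.H834.K4
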