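import Pool.Agent.H834.K4.Fin
import Pool.Agent.H834.E.Main
import Pool.Graph.R_seed8.W603.PV.Ext

/-!
# The relation for the quotient of `E × D` by a cyclic group
-/

set_option autoImplicit false
set_option linter.unusedSectionVars false
set_option linter.unusedVariables false

namespace Pool.Agent.H834.K4

open FF Polynomial Module Pool.Agent.Q70.CH Pool.Agent.Q70.KM Pool.Agent.H834.E
  Pool.Agent.H834.KJ Pool.Agent.H834.ED

section

variable {k : Type} [Field k] [CharZero k] [IsAlgClosed k]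
  {K : Type} [Field K] [Algebra k K] [IsFF k K] {L : Type} [Field L] [Algebra k L] [IsFF k L]

/-- the polynomial of the second curve -/
noncomputable def fD (l c₀ c d : k) (m : ℕ) : k[X] :=
  lg l * (((X - C c₀) ^ m - C c) * ((X - C c₀) ^ m - C d))

lemma fD_eval (l c₀ c d : k) (m : ℕ) (a : k) : (fD l c₀ c d m).eval a =
    (lg l).eval a * (((a - c₀) ^ m - c) * ((a - c₀) ^ m - d)) := by
  simp [fD]

/-- A finite extension with a square root. -/
theorem exists_sqrt (δ : K) : ∃ (B : Type) (_ : Field B) (_ : Algebra k B) (φ : K →ₐ[k] B) (v : B),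
    IsFF k B ∧ v ^ 2 = φ δ := by
  obtain ⟨v, hv⟩ : ∃ v : AlgebraicClosure K, v ^ 2 = algebraMap K (AlgebraicClosure K) δ :=
    IsAlgClosed.exists_pow_nat_eq _ (n := 2) (by norm_num)
  let B := IntermediateField.adjoin K {v}
  have hint : IsIntegral K v := Algebra.IsIntegral.isIntegral v
  have hfin : FiniteDimensional K B := IntermediateField.adjoin.finiteDimensional hint
  refine ⟨B, inferInstance, inferInstance, IsScalarTower.toAlgHom k K B,
    ⟨v, IntermediateField.mem_adjoin_simple_self K v⟩, ?_, ?_⟩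
  · exact Pool.Agent.W603.PV.isFF_of_finite (F := K)
  · apply Subtype.ext
    exact hv

lemma exists_zero {f : K} (hf : Transcendental k f) : ∃ w : Place k K, 0 < w.ord f := by
  obtain ⟨S, h1, -, h3⟩ := FF.zeros hf
  by_contra hcon
  push Not at hcon
  have hS : S = ∅ := by
    rw [Finset.eq_empty_iff_forall_notMem]
    intro w hw
    have := (h1 w).1 hw
    have := hcon w
    omega
  rw [hS, Finset.sum_empty] at h3
  have hfin : FiniteDimensional (IntermediateField.adjoin k {f}) K := IsFF.finite hf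
  have := Module.finrank_pos (R := IntermediateField.adjoin k {f}) (M := K)
  omega

/-- A weighted sum with two values. -/
lemma two_values {ι M : Type} [AddCommGroup M] [Module ℚ M] (S : Finset ι) (D : ι → ℚ) (h : ι → M)
    (p q : M) (hdeg : ∑ w ∈ S, D w = 0) (hsum : ∑ w ∈ S, D w • h w = 0)
    (hp : ∀ w ∈ S, 0 < D w → h w = p) (hq : ∀ w ∈ S, D w < 0 → h w = q)
    (hpos : ∃ w ∈ S, 0 < D w) : p = q := by
  classical
  have h1 : ∀ w ∈ S, D w • h w = (if 0 < D w then D w else 0) • (p - q) + D w • q := by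
    intro w hw
    by_cases hD : 0 < D w
    · rw [if_pos hD, hp w hw hD]
      module
    · rw [if_neg hD, zero_smul, zero_add]
      rcases lt_or_eq_of_le (not_lt.1 hD) with h2 | h2
      · rw [hq w hw h2]
      · rw [h2, zero_smul, zero_smul]
  rw [Finset.sum_congr rfl h1, Finset.sum_add_distrib, ← Finset.sum_smul, ← Finset.sum_smul, hdeg,
    zero_smul, add_zero] at hsum
  obtain ⟨w₀, hw₀, hD₀⟩ := hpos
  have h2 : 0 < ∑ w ∈ S, if 0 < D w then D w else 0 := by
    refine Finset.sum_pos' (fun w _ => ?_) ⟨w₀, hw₀, by rw [if_pos hD₀]; exact hD₀⟩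
    split_ifs with h3
    · exact h3.le
    · exact le_rfl
  exact sub_eq_zero.1 ((smul_eq_zero.1 hsum).resolve_left h2.ne')

/-- **The relation.** -/
theorem rel {l c₀ c d : k} {m : ℕ} (hm : 0 < m) (hcd : c ≠ d) {x y : K} {σ : K ≃ₐ[k] K}
    {O : Place k K} (E : Ell l x y σ O) {x' y' : L} {σ' : L ≃ₐ[k] L} {W : Place k L}
    (E' : Hy (fD l c₀ c d m) x' y' σ' W) {P : Place k K} {Q : Place k L} {a b b' : k}
    (ha : At P x a) (hb : At P y b) (ha' : At Q x' a) (hb' : At Q y' b') (hb0 : b ≠ 0)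
    (hb'0 : b' ≠ 0) (N : Submodule ℚ (CH0 k K L))
    (hN : ∀ (P' : Place k K) (Q' : Place k L) (a₁ b₁ b₁' : k), At P' x a₁ → At P' y b₁ →
      At Q' x' a₁ → At Q' y' b₁' → (a₁ - c₀) ^ m = (a - c₀) ^ m → b₁' * b = b' * b₁ →
      cl2 (Finsupp.single (P', Q') 1) - cl2 (Finsupp.single (P, Q) 1) ∈ N) :
    cl2 (Finsupp.single (P, Q) 1) - cl2 (Finsupp.single (O, W) 1) ∈ N := by
  classical
  obtain ⟨B, _, _, φ, v, hB, hv⟩ := exists_sqrt (k := k)
    (((x - algebraMap k K c₀) ^ m - algebraMap k K c) *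
      ((x - algebraMap k K c₀) ^ m - algebraMap k K d))
  have hφA : ∀ e : k, φ (algebraMap k K e) = algebraMap k B e := fun e => φ.commutes e
  have htrX : Transcendental k (φ x) := by
    intro h
    exact E.h.tr ((isAlgebraic_algHom_iff φ φ.injective).1 h)
  have htrX0 := tr_sub htrX c₀
  set T := (φ x - algebraMap k B c₀) ^ m with hT
  have hv2 : v ^ 2 = (T - algebraMap k B c) * (T - algebraMap k B d) := by
    rw [hv, map_mul, map_sub, map_sub, map_pow, map_sub, hφA, hφA, hφA]
  have hXinj : Function.Injective (eval₂RingHom (algebraMap k B) (φ x)) := transcendental_iff_injective.1 htrX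
  obtain ⟨Ψ, h1', h2', h3'⟩ := E'.h.lift E'.sep E'.deg (algebraMap k B) (φ x) (v * φ y) hXinj (by
    have h1 : (φ y) ^ 2 = (lg l).eval₂ (algebraMap k B) (φ x) := by
      rw [← map_pow, E.h.eq]
      rw [← aeval_algHom_apply]
      rfl
    rw [mul_pow, hv2, h1]
    unfold fD
    simp only [eval₂_mul, eval₂_sub, eval₂_pow, eval₂_X, eval₂_C]
    ring)
  let ψ : L →ₐ[k] B := { Ψ with commutes' := h1' }
  have hψx : ψ x' = φ x := h2'
  have hψy : ψ y' = v * φ y := h3'
  -- the parameter `T` is transcendental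
  obtain ⟨wT, hwT⟩ := exists_zero htrX0
  have hordT : 0 < wT.ord T := by
    rw [hT, wT.ord_pow]
    have : (0 : ℤ) < m := by exact_mod_cast hm
    exact mul_pos this hwT
  have htrT : Transcendental k T := wT.transcendental_of_ord_ne hordT.ne'
  have htrTc := tr_sub htrT c
  have hTc0 : T - algebraMap k B c ≠ 0 := fun h => htrTc (by rw [h]; exact isAlgebraic_zero)
  have e : c - d ≠ 0 := sub_ne_zero.2 hcd
  -- the function `s`
  set s := v / (T - algebraMap k B c) with hs
  have hs1 : (s ^ 2 - 1) * (T - algebraMap k B c) = algebraMap k B (c - d) := by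
    rw [hs, div_pow, hv2, map_sub]
    field_simp
    ring
  have hAe : algebraMap k B (c - d) ≠ 0 := by
    rw [Ne, map_eq_zero_iff (algebraMap k B) (algebraMap k B).injective]
    exact e
  have hs10 : s ^ 2 - 1 ≠ 0 := left_ne_zero_of_mul (by rw [hs1]; exact hAe)
  have hvs : v = s * (T - algebraMap k B c) := by
    rw [hs]
    field_simp
  -- the values
  obtain ⟨b'', hb'', he'⟩ := E'.h.y_at ha'
  rw [hb'.unique hb''] at hb'0
  obtain ⟨b₂, hb₂, he⟩ := E.h.y_at ha
  rw [← hb.unique hb₂] at he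
  rw [← hb'.unique hb'', fD_eval, ← he] at he'
  rw [← hb'.unique hb''] at hb'0
  set t₀ := (a - c₀) ^ m with ht₀
  have ht₀c : t₀ - c ≠ 0 := by
    intro h
    rw [h, zero_mul, mul_zero] at he'
    exact hb'0 (pow_eq_zero_iff two_ne_zero |>.1 he')
  set v₀ := b' / b with hv₀
  have hv₀b : v₀ * b = b' := div_mul_cancel₀ _ hb0
  have hv₀2 : v₀ ^ 2 = (t₀ - c) * (t₀ - d) := by
    apply mul_left_cancel₀ (pow_ne_zero 2 hb0)
    rw [← he', ← hv₀b]
    ring
  set s₀ := v₀ / (t₀ - c) with hs₀
  have hs₀v : s₀ * (t₀ - c) = v₀ := div_mul_cancel₀ _ ht₀c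
  have hs₀1 : (s₀ ^ 2 - 1) * (t₀ - c) = c - d := by
    apply mul_right_cancel₀ ht₀c
    have h4 : s₀ ^ 2 * (t₀ - c) ^ 2 = v₀ ^ 2 := by rw [← hs₀v]; ring
    rw [hv₀2] at h4
    linear_combination h4
  have hs₀ne : s₀ ^ 2 - 1 ≠ 0 := left_ne_zero_of_mul (by rw [hs₀1]; exact e)
  have hs₀ne1 : s₀ - 1 ≠ 0 := by
    intro h
    apply hs₀ne
    linear_combination (s₀ + 1) * h
  -- places
  have hTc : ∀ (w : Place k B) (s₁ : k), At w s s₁ → s₁ ^ 2 - 1 ≠ 0 →
      At w (T - algebraMap k B c) ((c - d) / (s₁ ^ 2 - 1)) := by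
    intro w s₁ h h1
    have h2 : At w (s ^ 2 - 1) (s₁ ^ 2 - 1) := by
      have := (h.pow 2).sub (at_const w 1)
      rwa [map_one] at this
    have h3 : T - algebraMap k B c = algebraMap k B (c - d) / (s ^ 2 - 1) := by
      rw [eq_div_iff hs10, ← hs1]
      ring
    rw [h3]
    exact (at_const w (c - d)).div h2 h1
  -- `s` is transcendental
  have htrs : Transcendental k s := by
    obtain ⟨w, hw⟩ := exists_zero htrTc
    have h1 : w.ord (s ^ 2 - 1) < 0 := by
      have h2 := congrArg w.ord hs1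
      rw [w.ord_mul hs10 hTc0, w.ord_const e] at h2
      omega
    refine w.transcendental_of_ord_ne (f := s) ?_
    intro h2
    have h3 : w.Reg s := Or.inr h2.ge
    obtain ⟨s₁, hs₁⟩ := exists_at h3
    have h4 : At w (s ^ 2 - 1) (s₁ ^ 2 - 1) := by
      have := (hs₁.pow 2).sub (at_const w 1)
      rwa [map_one] at this
    have := (w.reg_iff hs10).1 h4.1
    omega
  have hsA : ∀ e : k, s - algebraMap k B e ≠ 0 := fun e h => (tr_sub htrs e) (by
    rw [h]; exact isAlgebraic_zero)
  -- the two kinds of places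
  have hkP : ∀ w : Place k B, At w s s₀ →
      ∃ a₁ b₁ b₁', At (below φ w) x a₁ ∧ At (below φ w) y b₁ ∧ At (below ψ w) x' a₁ ∧
        At (below ψ w) y' b₁' ∧ (a₁ - c₀) ^ m = t₀ ∧ b₁' * b = b' * b₁ := by
    intro w hw
    have h1 := hTc w s₀ hw hs₀ne
    have h2 : (c - d) / (s₀ ^ 2 - 1) = t₀ - c := by
      rw [div_eq_iff hs₀ne, ← hs₀1]
      ring
    rw [h2] at h1
    have h3 : At w T t₀ := by
      have := h1.add (at_const w c)
      rw [sub_add_cancel, sub_add_cancel] at this
      exact this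
    have h4 : At w v v₀ := by
      have := hw.mul h1
      rwa [← hvs, hs₀v] at this
    have hX0 : φ x - algebraMap k B c₀ ≠ 0 := fun h => htrX0 (by rw [h]; exact isAlgebraic_zero)
    have h5 : w.Reg (φ x - algebraMap k B c₀) := by
      rw [w.reg_iff hX0]
      have h6 : (0 : ℤ) ≤ w.ord T := (w.reg_iff (pow_ne_zero m hX0)).1 h3.1
      rw [hT, w.ord_pow] at h6
      have : (0 : ℤ) < m := by exact_mod_cast hm
      by_contra hneg
      push Not at hneg
      have := mul_neg_of_pos_of_neg this hneg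
      omega
    obtain ⟨a₂, ha₂⟩ := exists_at h5
    have h6 : At w (φ x) (a₂ + c₀) := by
      have := ha₂.add (at_const w c₀)
      rwa [sub_add_cancel] at this
    have h7 : a₂ ^ m = t₀ := (ha₂.pow m).unique h3
    have h8 : At (below φ w) x (a₂ + c₀) := at_below φ h6
    obtain ⟨b₁, hb₁, -⟩ := E.h.y_at h8
    have h9 : At w (φ y) b₁ := by
      obtain ⟨b₃, hb₃⟩ : ∃ b₃, At w (φ y) b₃ := by
        apply exists_at
        have hφy : φ y ≠ 0 := by
          rw [Ne, map_eq_zero_iff φ φ.injective]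
          exact E.h.y_ne E.sep
        rw [w.reg_iff hφy]
        obtain ⟨n, hn, h10⟩ := below_spec φ w
        rw [h10]
        exact mul_nonneg (by omega) (((below φ w).reg_iff (E.h.y_ne E.sep)).1 hb₁.1)
      rwa [(at_below φ hb₃).unique hb₁] at hb₃
    refine ⟨a₂ + c₀, b₁, v₀ * b₁, h8, hb₁, at_below ψ (by rw [hψx]; exact h6),
      at_below ψ (by rw [hψy]; exact h4.mul h9), ?_, ?_⟩
    · rw [add_sub_cancel_right]
      exact h7
    · rw [← hv₀b]
      ring
  have hkO : ∀ w : Place k B, At w s 1 → below φ w = O ∧ below ψ w = W := by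
    intro w hw
    have h1 : At w (s ^ 2 - 1) 0 := by
      have := (hw.pow 2).sub (at_const w 1)
      rwa [map_one, one_pow, sub_self] at this
    have h2 := (at_zero_iff.1 h1).resolve_left hs10
    have h3 : w.ord (T - algebraMap k B c) < 0 := by
      have h4 := congrArg w.ord hs1
      rw [w.ord_mul hs10 hTc0, w.ord_const e] at h4
      omega
    have h4 : ¬ w.Reg (φ x) := by
      intro h4
      obtain ⟨a₂, ha₂⟩ := exists_at h4
      have h5 : At w (T - algebraMap k B c) ((a₂ - c₀) ^ m - c) :=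
        ((ha₂.sub (at_const w c₀)).pow m).sub (at_const w c)
      have := (w.reg_iff hTc0).1 h5.1
      omega
    have hpb : ∀ {M : Type} [Field M] [Algebra k M] [IsFF k M] (χ : M →ₐ[k] B) (ξ : M)
        (V : Place k M) (hξ : ξ ≠ 0) (hr : ∀ W : Place k M, W ≠ V → W.Reg ξ)
        (hχ : χ ξ = φ x), below χ w = V := by
      intro M _ _ _ χ ξ V hξ hr hχ
      by_contra hne
      obtain ⟨n, hn, h5⟩ := below_spec χ w
      have h6 := ((below χ w).reg_iff hξ).1 (hr _ hne)
      apply h4
      have hX : φ x ≠ 0 := by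
        rw [← hχ, Ne, map_eq_zero_iff χ χ.injective]
        exact hξ
      rw [w.reg_iff hX, ← hχ, h5]
      exact mul_nonneg (by omega) h6
    exact ⟨hpb φ x O E.x_ne E.reg rfl, hpb ψ x' W E'.x_ne E'.reg hψx⟩
  -- the function
  set u := (s - algebraMap k B s₀) / (s - algebraMap k B 1) with hu
  have hu0 : u ≠ 0 := div_ne_zero (hsA s₀) (hsA 1)
  have hordu : ∀ w : Place k B, w.ord u = w.ord (s - algebraMap k B s₀) - w.ord (s - algebraMap k B 1) := fun w =>
    w.ord_div (hsA s₀) (hsA 1)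
  have hcase : ∀ w : Place k B, (0 < w.ord u → At w s s₀) ∧ (w.ord u < 0 → At w s 1) := by
    intro w
    by_cases hw : w.Reg s
    · obtain ⟨s₁, hs₁⟩ := exists_at hw
      have hgen : ∀ e : k, s₁ ≠ e → w.ord (s - algebraMap k B e) = 0 := fun e he =>
        (hs₁.sub (at_const w e)).ord_eq_zero (sub_ne_zero.2 he)
      have hge : ∀ e : k, 0 ≤ w.ord (s - algebraMap k B e) := fun e =>
        (w.reg_iff (hsA e)).1 (hs₁.sub (at_const w e)).1
      have h1 := hge 1
      have h2 := hge s₀
      constructor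
      · intro h3
        rw [hordu] at h3
        by_cases h4 : s₁ = s₀
        · rw [← h4]; exact hs₁
        · rw [hgen s₀ h4] at h3
          omega
      · intro h3
        rw [hordu] at h3
        by_cases h4 : s₁ = 1
        · rw [← h4]; exact hs₁
        · rw [hgen 1 h4] at h3
          omega
    · have hneg : w.ord s < 0 := by
        unfold Place.Reg at hw
        push Not at hw
        exact hw.2
      have h1 : w.ord u = 0 := by
        rw [hordu, (ord_sub_const hneg s₀).2, (ord_sub_const hneg 1).2, sub_self]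
      rw [h1]
      exact ⟨fun h => absurd h (lt_irrefl _), fun h => absurd h (lt_irrefl _)⟩
  -- the sum
  have hmem := rat3_of_curve φ ψ hu0
  rw [← cl2_eq_zero] at hmem
  set D : Place k B →₀ ℚ := qdiv (k := k) u with hD
  have hDw : ∀ w, D w = (w.ord u : ℚ) := fun w => qdiv_apply u w
  set π := N.mkQ with hπ
  set h : Place k B → CH0 k K L ⧸ N := fun w => π (cl2 (Finsupp.single (below φ w, below ψ w) 1))
    with hh
  have hsum : ∑ w ∈ D.support, D w • h w = 0 := by
    have h1 := congrArg π hmem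
    rw [map_zero] at h1
    rw [← h1]
    have h2 : ((π.comp cl2).comp (Finsupp.lmapDomain ℚ ℚ (fun w => (below φ w, below ψ w)))) D =
        Finsupp.linearCombination ℚ h D := by
      congr 1
      apply Finsupp.lhom_ext'
      intro w
      apply LinearMap.ext_ring
      simp only [LinearMap.comp_apply, Finsupp.lsingle_apply, Finsupp.lmapDomain_apply,
        Finsupp.mapDomain_single, Finsupp.linearCombination_single, one_smul, hh]
    have h3 : Finsupp.linearCombination ℚ h D = ∑ w ∈ D.support, D w • h w := by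
      rw [Finsupp.linearCombination_apply]
      rfl
    rw [← h3, ← h2]
    rfl
  have hdeg : ∑ w ∈ D.support, D w = 0 := by
    have h1 := dg_qdiv (k := k) u
    rw [dg_eq] at h1
    exact h1
  obtain ⟨w₀, hw₀⟩ := exists_zero (tr_sub htrs s₀)
  have hw₀s : At w₀ s s₀ := at_iff.2 (Or.inr hw₀)
  have hw₀u : 0 < w₀.ord u := by
    have h1 : w₀.ord (s - algebraMap k B 1) = 0 := (hw₀s.sub (at_const w₀ 1)).ord_eq_zero hs₀ne1
    rw [hordu, h1, sub_zero]
    exact hw₀
  have hfin := two_values D.support D h (π (cl2 (Finsupp.single (P, Q) 1)))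
    (π (cl2 (Finsupp.single (O, W) 1))) hdeg hsum ?_ ?_ ⟨w₀, ?_, ?_⟩
  · rw [← sub_eq_zero, ← map_sub] at hfin
    exact (Submodule.Quotient.mk_eq_zero N).1 hfin
  · intro w _ hw
    rw [hDw] at hw
    have hw' : 0 < w.ord u := by exact_mod_cast hw
    obtain ⟨a₁, b₁, b₁', h1, h2, h3, h4, h5, h6⟩ := hkP w ((hcase w).1 hw')
    have h7 := hN _ _ a₁ b₁ b₁' h1 h2 h3 h4 h5 h6
    rw [← sub_eq_zero, hh, ← map_sub]
    exact (Submodule.Quotient.mk_eq_zero N).2 h7
  · intro w _ hw
    rw [hDw] at hw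
    have hw' : w.ord u < 0 := by exact_mod_cast hw
    obtain ⟨h1, h2⟩ := hkO w ((hcase w).2 hw')
    rw [hh]
    simp only [h1, h2]
  · rw [Finsupp.mem_support_iff, hDw]
    exact_mod_cast hw₀u.ne'
  · rw [hDw]
    exact_mod_cast hw₀u

end

end Pool.Agent.H834.K4
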